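import Pool.Agent.H53.GM.Targets2

/-!
# Maximal types exist (row MXE of gm2_modules)
-/

set_option autoImplicit false

open Classical

namespace Pool.Agent.H16.GM

open Pool.Agent.H68.BP Pool.Agent.H58.SF Pool.Agent.H53.GC Pool.Agent.H53.GR Pool.Agent.H53.GM

theorem pf_MXE : Pool.Agent.H53.GM.T_MXE := by
  intro τ N F J _ t ht
  haveI : Finite (Pool.Agent.H53.GM.Ty τ N J) := Pool.Agent.H53.GM.finite_ty τ N J
  have hfin : {t' : Pool.Agent.H53.GM.Ty τ N J | Pool.Agent.H53.GM.Rl F t' ∧ t ⊆ t'}.Finite :=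
    Set.toFinite _
  obtain ⟨m, hm⟩ := hfin.exists_maximal ⟨t, ht, le_refl t⟩
  refine ⟨m, ⟨hm.prop.1, fun t' h1 h2 => ?_⟩, hm.prop.2⟩
  exact Set.Subset.antisymm (hm.le_of_ge ⟨h1, hm.prop.2.trans h2⟩ h2) h2

end Pool.Agent.H16.GM
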